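import Pool.Agent.Helper25.HL.Goals1

/-!
# Project HL: packet RDG (the ridge map)
-/

set_option autoImplicit false

noncomputable section

namespace Pool.Agent.Helper5.HL

open Pool.Agent.Helper25.HL

section form

variable {ι : Type} [Fintype ι]

theorem ip_add_right (x y z : ι → ℂ) : ip x (y + z) = ip x y + ip x z := by
  simp only [ip, Pi.add_apply, mul_add, Finset.sum_add_distrib]

theorem ip_smul_right (c : ℂ) (x y : ι → ℂ) : ip x (c • y) = c * ip x y := by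
  simp only [ip, Pi.smul_apply, smul_eq_mul, Finset.mul_sum]
  exact Finset.sum_congr rfl fun t _ => by ring

theorem ip_conj (x y : ι → ℂ) : (starRingEnd ℂ) (ip x y) = ip y x := by
  simp only [ip, map_sum, map_mul, Complex.conj_conj]
  exact Finset.sum_congr rfl fun t _ => mul_comm _ _

theorem re_comm (x y : ι → ℂ) : (ip x y).re = (ip y x).re := by
  rw [← ip_conj x y, Complex.conj_re]

theorem ip_self (x : ι → ℂ) : (ip x x).re = Helper25.HL.sq x := by
  simp only [ip, Helper25.HL.sq, Complex.re_sum]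
  refine Finset.sum_congr rfl fun t _ => ?_
  rw [← Complex.normSq_eq_conj_mul_self, Complex.ofReal_re, Complex.normSq_eq_norm_sq]

theorem sq_nonneg' (x : ι → ℂ) : 0 ≤ Helper25.HL.sq x := Finset.sum_nonneg fun t _ => by positivity

theorem sq_add (x y : ι → ℂ) : Helper25.HL.sq (x + y) = Helper25.HL.sq x + Helper25.HL.sq y + 2 * (ip x y).re := by
  rw [← ip_self (x + y), ip_add_right, Complex.add_re, re_comm (x + y) x, re_comm (x + y) y,
    ip_add_right, ip_add_right, Complex.add_re, Complex.add_re, ip_self, ip_self, re_comm y x]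
  ring

theorem sq_smul (c : ℝ) (x : ι → ℂ) : Helper25.HL.sq ((c : ℂ) • x) = c ^ 2 * Helper25.HL.sq x := by
  simp only [Helper25.HL.sq, Pi.smul_apply, smul_eq_mul, norm_mul, Complex.norm_real, mul_pow,
    Real.norm_eq_abs, sq_abs, Finset.mul_sum]

theorem sq_neg (x : ι → ℂ) : Helper25.HL.sq (-x) = Helper25.HL.sq x := by
  simp only [Helper25.HL.sq, Pi.neg_apply, norm_neg]

theorem two_re_le (x y : ι → ℂ) : 2 * (ip x y).re ≤ Helper25.HL.sq x + Helper25.HL.sq y := by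
  have h1 := sq_nonneg' (x + (((-1 : ℝ) : ℂ)) • y)
  rw [sq_add, ip_smul_right, sq_smul, Complex.re_ofReal_mul] at h1
  nlinarith

theorem sq_add_le (x y : ι → ℂ) : Helper25.HL.sq (x + y) ≤ 2 * Helper25.HL.sq x + 2 * Helper25.HL.sq y := by
  rw [sq_add]
  linarith [two_re_le x y]

theorem eq_zero_of_sq {x : ι → ℂ} (h : Helper25.HL.sq x = 0) : x = 0 := by
  funext t
  have h1 := (Finset.sum_eq_zero_iff_of_nonneg fun t _ => by positivity).1 h t (Finset.mem_univ t)
  simpa using h1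

end form

variable {p q : ℕ} (σ : Fin p → Fin q → Bool) (S : Finset (Fin q))

/-- the adjoint of the restricted code -/
def RA : (Fin p → ℂ) →ₗ[ℂ] (Fin q → ℂ) where
  toFun v := fun t => if t ∈ S then ∑ a, (Rm σ a t : ℂ) * v a else 0
  map_add' x y := by
    funext t
    by_cases h : t ∈ S
    · simp [h, mul_add, Finset.sum_add_distrib]
    · simp [h]
  map_smul' c x := by
    funext t
    by_cases h : t ∈ S
    · simp only [h, if_true, Pi.smul_apply, smul_eq_mul, RingHom.id_apply, Finset.mul_sum]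
      exact Finset.sum_congr rfl fun a _ => by ring
    · simp [h]

theorem RA_apply (v : Fin p → ℂ) (t : Fin q) :
    RA σ S v t = if t ∈ S then ∑ a, (Rm σ a t : ℂ) * v a else 0 := rfl

theorem res_RA (v : Fin p → ℂ) : res S (RA σ S v) = RA σ S v := by
  funext t
  by_cases h : t ∈ S <;> simp [res, RA_apply, h]

theorem adj (w : Fin q → ℂ) (y : Fin p → ℂ) :
    ip (RV σ (res S w)) y = ip (res S w) (RA σ S y) := by
  have h1 : ip (RV σ (res S w)) y =
      ∑ a, ∑ t, (starRingEnd ℂ) (res S w t) * ((Rm σ a t : ℂ) * y a) := by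
    unfold ip
    refine Finset.sum_congr rfl fun a _ => ?_
    show (starRingEnd ℂ) (∑ t, (Rm σ a t : ℂ) * res S w t) * y a = _
    rw [map_sum, Finset.sum_mul]
    refine Finset.sum_congr rfl fun t _ => ?_
    rw [map_mul, Complex.conj_ofReal]
    ring
  rw [h1, Finset.sum_comm]
  unfold ip
  refine Finset.sum_congr rfl fun t _ => ?_
  rw [RA_apply, ← Finset.mul_sum]
  by_cases h : t ∈ S
  · rw [if_pos h]
  · rw [if_neg h]
    simp [res, h]

theorem X_mulVec (y : Fin p → ℂ) : (XS σ S).mulVec y = RV σ (RA σ S y) := by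
  funext a
  show ∑ b, (∑ t ∈ S, ((Rm σ a t : ℝ) : ℂ) * ((Rm σ b t : ℝ) : ℂ)) * y b =
    ∑ t, (Rm σ a t : ℂ) * RA σ S y t
  have h1 : ∀ t, (Rm σ a t : ℂ) * RA σ S y t =
      if t ∈ S then ∑ b, ((Rm σ a t : ℝ) : ℂ) * ((Rm σ b t : ℝ) : ℂ) * y b else 0 := by
    intro t
    rw [RA_apply]
    by_cases h : t ∈ S
    · rw [if_pos h, if_pos h, Finset.mul_sum]
      exact Finset.sum_congr rfl fun b _ => by ring
    · rw [if_neg h, if_neg h, mul_zero]
  simp only [h1, Finset.sum_mul]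
  rw [Finset.sum_comm, Finset.sum_ite_mem, Finset.univ_inter]

theorem ip_X (y z : Fin p → ℂ) : ip ((XS σ S).mulVec z) y = ip (RA σ S z) (RA σ S y) := by
  rw [X_mulVec, ← res_RA σ S z, adj, res_RA]

theorem re_ip_X (y : Fin p → ℂ) : (ip y ((XS σ S).mulVec y)).re = Helper25.HL.sq (RA σ S y) := by
  rw [re_comm, ip_X, ip_self]

variable (Λ : ℝ)

/-- the norm identity -/
theorem sq_M (y : Fin p → ℂ) : Helper25.HL.sq (((Λ ^ 2 : ℝ) : ℂ) • y + (XS σ S).mulVec y) =
    Λ ^ 4 * Helper25.HL.sq y + Helper25.HL.sq ((XS σ S).mulVec y) + 2 * Λ ^ 2 * Helper25.HL.sq (RA σ S y) := by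
  have h1 : (ip (((Λ ^ 2 : ℝ) : ℂ) • y) ((XS σ S).mulVec y)).re = Λ ^ 2 * Helper25.HL.sq (RA σ S y) := by
    rw [re_comm, ip_smul_right, Complex.re_ofReal_mul, re_comm, re_ip_X]
  rw [sq_add, sq_smul, h1]
  ring

theorem M_mulVec (y : Fin p → ℂ) :
    (((Λ ^ 2 : ℝ) : ℂ) • (1 : Matrix (Fin p) (Fin p) ℂ) + XS σ S).mulVec y =
      ((Λ ^ 2 : ℝ) : ℂ) • y + (XS σ S).mulVec y := by
  rw [Matrix.add_mulVec, Matrix.smul_mulVec, Matrix.one_mulVec]

theorem isUnit_M (hΛ : 1 ≤ Λ) :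
    IsUnit (((Λ ^ 2 : ℝ) : ℂ) • (1 : Matrix (Fin p) (Fin p) ℂ) + XS σ S) := by
  rw [← Matrix.mulVec_injective_iff_isUnit]
  intro x y hxy
  have h1 : (((Λ ^ 2 : ℝ) : ℂ) • (1 : Matrix (Fin p) (Fin p) ℂ) + XS σ S).mulVec (x - y) = 0 := by
    rw [Matrix.mulVec_sub]
    exact sub_eq_zero.2 hxy
  rw [M_mulVec] at h1
  have h2 := sq_M σ S Λ (x - y)
  rw [h1] at h2
  have h3 : Helper25.HL.sq (0 : Fin p → ℂ) = 0 := by simp [Helper25.HL.sq]
  rw [h3] at h2
  have h4 := sq_nonneg' (x - y)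
  have h5 := sq_nonneg' ((XS σ S).mulVec (x - y))
  have h6 := sq_nonneg' (RA σ S (x - y))
  have h7 : 1 ≤ Λ ^ 4 := one_le_pow₀ hΛ
  have h8 : 0 ≤ Λ ^ 2 * Helper25.HL.sq (RA σ S (x - y)) := by positivity
  have h9 : Helper25.HL.sq (x - y) = 0 := by nlinarith
  exact sub_eq_zero.1 (eq_zero_of_sq h9)

/-- the resolvent identity -/
theorem resolvent (hΛ : 1 ≤ Λ) (v : Fin p → ℂ) :
    v = ((Λ ^ 2 : ℝ) : ℂ) • (QS σ S Λ).mulVec v + (XS σ S).mulVec ((QS σ S Λ).mulVec v) := by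
  rw [← M_mulVec, Matrix.mulVec_mulVec, QS, Matrix.mul_nonsing_inv _
    ((Matrix.isUnit_iff_isUnit_det _).1 (isUnit_M σ S Λ hΛ)), Matrix.one_mulVec]

theorem EB_eq (hΛ : 1 ≤ Λ) (v : Fin p → ℂ) : EB σ S Λ v =
    Λ ^ 2 * Helper25.HL.sq (RA σ S ((QS σ S Λ).mulVec v)) +
      Helper25.HL.sq ((XS σ S).mulVec ((QS σ S Λ).mulVec v)) := by
  unfold EB
  rw [← Matrix.mulVec_mulVec]
  set y := (QS σ S Λ).mulVec v with hy
  have h1 : v = ((Λ ^ 2 : ℝ) : ℂ) • y + (XS σ S).mulVec y := resolvent σ S Λ hΛ v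
  have h2 : (ip v ((XS σ S).mulVec y)).re =
      (ip ((XS σ S).mulVec y) (((Λ ^ 2 : ℝ) : ℂ) • y + (XS σ S).mulVec y)).re := by
    rw [← h1, re_comm]
  rw [h2, ip_add_right, Complex.add_re, ip_smul_right, Complex.re_ofReal_mul, ip_self,
    re_comm, re_ip_X]

/-- restriction as a linear map -/
def resL : (Fin q → ℂ) →ₗ[ℂ] (Fin q → ℂ) where
  toFun β := res S β
  map_add' x y := by
    funext t
    by_cases h : t ∈ S <;> simp [res, h]
  map_smul' c x := by
    funext t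
    by_cases h : t ∈ S <;> simp [res, h]

theorem resL_apply (β : Fin q → ℂ) : resL S β = res S β := rfl

/-- the ridge map -/
def bmap : ((Fin p → ℂ) × (Fin q → ℂ)) →ₗ[ℂ] (Fin q → ℂ) :=
  (resL S).comp (LinearMap.snd ℂ _ _) + (RA σ S).comp ((Matrix.mulVecLin (QS σ S Λ)).comp
    (LinearMap.fst ℂ _ _ - (RV σ).comp ((resL S).comp (LinearMap.snd ℂ _ _))))

theorem bmap_apply (x : (Fin p → ℂ) × (Fin q → ℂ)) : bmap σ S Λ x =
    res S x.2 + RA σ S ((QS σ S Λ).mulVec (x.1 - RV σ (res S x.2))) := rfl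

theorem rdg : S_RDG := by
  intro p q σ S Λ hΛ
  have hΛ2 : 1 ≤ Λ ^ 2 := one_le_pow₀ hΛ
  refine ⟨bmap σ S Λ, ?_, ?_, ?_⟩
  · intro x t ht
    rw [bmap_apply]
    simp [res, RA_apply, ht]
  · rintro ⟨u, w⟩
    rw [bmap_apply]
    simp only
    set y1 := (QS σ S Λ).mulVec u with hy1
    set ws := res S w with hws
    set y := (QS σ S Λ).mulVec (RV σ ws) with hy
    set c := ws - RA σ S y with hc
    have hb : ws + RA σ S ((QS σ S Λ).mulVec (u - RV σ ws)) = RA σ S y1 + c := by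
      rw [Matrix.mulVec_sub, map_sub, ← hy1, ← hy, hc]
      abel
    have e1 : u = ((Λ ^ 2 : ℝ) : ℂ) • y1 + (XS σ S).mulVec y1 := resolvent σ S Λ hΛ u
    have e2 : RV σ ws = ((Λ ^ 2 : ℝ) : ℂ) • y + (XS σ S).mulVec y := resolvent σ S Λ hΛ _
    have f1 := sq_M σ S Λ y1
    rw [← e1] at f1
    have g1 := sq_nonneg' y1
    have g2 := sq_nonneg' ((XS σ S).mulVec y1)
    have g3 := sq_nonneg' (RA σ S y1)
    have k1 : Helper25.HL.sq (RV σ (RA σ S y1)) ≤ Helper25.HL.sq u := by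
      rw [← X_mulVec]
      have : 0 ≤ Λ ^ 4 * Helper25.HL.sq y1 := by positivity
      have : 0 ≤ Λ ^ 2 * Helper25.HL.sq (RA σ S y1) := by positivity
      linarith
    have k2 : 2 * Helper25.HL.sq (RA σ S y1) ≤ Helper25.HL.sq u := by
      have : 0 ≤ Λ ^ 4 * Helper25.HL.sq y1 := by positivity
      have : Helper25.HL.sq (RA σ S y1) ≤ Λ ^ 2 * Helper25.HL.sq (RA σ S y1) := le_mul_of_one_le_left g3 hΛ2
      linarith
    have hcr : res S c = c := by
      funext t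
      by_cases h : t ∈ S <;> simp [res, hc, hws, RA_apply, h]
    have hRc : RV σ c = ((Λ ^ 2 : ℝ) : ℂ) • y := by
      rw [hc, map_sub, ← X_mulVec, e2, add_sub_cancel_right]
    have h1 : Helper25.HL.sq c + Λ ^ 2 * Helper25.HL.sq y = (ip c ws).re := by
      have h2 : ws = c + RA σ S y := by rw [hc, sub_add_cancel]
      have h3 : ip c (RA σ S y) = ip (RV σ c) y := by
        rw [← hcr, adj]
      have h4 : (ip (RV σ c) y).re = Λ ^ 2 * Helper25.HL.sq y := by
        rw [hRc, re_comm, ip_smul_right, Complex.re_ofReal_mul, ip_self]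
      calc Helper25.HL.sq c + Λ ^ 2 * Helper25.HL.sq y = (ip c c).re + (ip c (RA σ S y)).re := by
            rw [ip_self, h3, h4]
        _ = (ip c (c + RA σ S y)).re := by rw [ip_add_right, Complex.add_re]
        _ = (ip c ws).re := by rw [← h2]
    have h5 := two_re_le c ws
    have g4 := sq_nonneg' c
    have g5 := sq_nonneg' y
    have g6 : 0 ≤ Λ ^ 2 * Helper25.HL.sq y := by positivity
    have k3 : Helper25.HL.sq c ≤ Helper25.HL.sq ws := by linarith
    have k4 : 2 * (Λ ^ 2 * Helper25.HL.sq y) ≤ Helper25.HL.sq ws := by linarith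
    have k5 : 2 * Helper25.HL.sq (RV σ c) ≤ Λ ^ 2 * Helper25.HL.sq ws := by
      rw [hRc, sq_smul]
      have := mul_le_mul_of_nonneg_left k4 (by positivity : 0 ≤ Λ ^ 2)
      nlinarith
    have k6 : Helper25.HL.sq ws ≤ Helper25.HL.sq w := by
      refine Finset.sum_le_sum fun t _ => ?_
      by_cases h : t ∈ S <;> simp [hws, res, h]
    have k7 := sq_add_le (RV σ (RA σ S y1)) (RV σ c)
    have k8 := sq_add_le (RA σ S y1) c
    rw [hb, map_add]
    have g7 := sq_nonneg' u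
    have g8 := sq_nonneg' ws
    have g9 := sq_nonneg' w
    have k9 : Helper25.HL.sq w ≤ Λ ^ 2 * Helper25.HL.sq w := le_mul_of_one_le_left g9 hΛ2
    have k10 : Helper25.HL.sq u ≤ Λ ^ 2 * Helper25.HL.sq u := le_mul_of_one_le_left g7 hΛ2
    have k11 : Λ ^ 2 * Helper25.HL.sq ws ≤ Λ ^ 2 * Helper25.HL.sq w := mul_le_mul_of_nonneg_left k6 (by positivity)
    nlinarith
  · intro β
    rw [bmap_apply]
    simp only
    have h1 : RV σ β - RV σ (res S β) = RV σ (res Sᶜ β) := by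
      rw [← map_sub]
      congr 1
      funext t
      by_cases h : t ∈ S <;> simp [res, h]
    rw [h1, add_sub_cancel_left, ← X_mulVec, EB_eq σ S Λ hΛ]
    have g1 := sq_nonneg' (RA σ S ((QS σ S Λ).mulVec (RV σ (res Sᶜ β))))
    have g2 := sq_nonneg' ((XS σ S).mulVec ((QS σ S Λ).mulVec (RV σ (res Sᶜ β))))
    nlinarith

end Pool.Agent.Helper5.HL
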